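import Pool.Agent.Y546.WQ.Stm6

/-!
# Project RT (helper546): step KFIN, minus one is not a square modulo four at a prime with odd ramification index
-/

set_option autoImplicit false

namespace Pool.Agent.Y651.WQ

open NumberField IsDedekindDomain Polynomial Pool.Agent.Y546.WQ
open WithZero (exp)

section

variable {p : ℕ} [Fact p.Prime]

/-- the number of solutions of `t ^ q = 1` is odd -/
theorem odd_H (q : ℕ) (hq : Odd q) :
    Odd (Finset.univ.filter (fun t : (ZMod p)ˣ => t ^ q = 1)).card := by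
  rw [← Nat.not_even_iff_odd]
  intro he
  let K : Subgroup (ZMod p)ˣ := (powMonoidHom q : (ZMod p)ˣ →* (ZMod p)ˣ).ker
  have hK : Nat.card K = (Finset.univ.filter (fun t : (ZMod p)ˣ => t ^ q = 1)).card := by
    rw [Nat.card_eq_fintype_card, ← Fintype.card_coe]
    apply Fintype.card_congr
    refine Equiv.subtypeEquivRight ?_
    intro t
    simp [K, MonoidHom.mem_ker]
  have : Fact (Nat.Prime 2) := ⟨Nat.prime_two⟩
  obtain ⟨x, hx⟩ := exists_prime_orderOf_dvd_card' (G := K) 2 (by rw [hK]; exact he.two_dvd)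
  have h1 : x ^ q = 1 := by
    apply Subtype.ext
    have := x.2
    rw [MonoidHom.mem_ker] at this
    simpa using this
  have h2 := orderOf_dvd_of_pow_eq_one h1
  rw [hx] at h2
  rcases hq with ⟨k, hk⟩
  omega

/-- splitting of the product -/
theorem prod_G (hp2 : p ≠ 2) (q : ℕ) (hq : Odd q) {M : Type*} [CommMonoid M] (F : (ZMod p)ˣ → M) :
    ∏ t ∈ Finset.univ.filter (fun t : (ZMod p)ˣ => t ^ (2 * q) = 1), F t =
      ∏ t ∈ Finset.univ.filter (fun t : (ZMod p)ˣ => t ^ q = 1), (F t * F (t * (-1))) := by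
  have hpp : p.Prime := Fact.out
  have hne : (-1 : (ZMod p)ˣ) ≠ 1 := by
    intro h
    have h1 := congrArg (fun u : (ZMod p)ˣ => (u : ZMod p)) h
    simp only [Units.val_neg, Units.val_one] at h1
    have : Fact (2 < p) := ⟨lt_of_le_of_ne hpp.two_le (Ne.symm hp2)⟩
    exact ZMod.neg_one_ne_one h1
  rw [← Finset.prod_filter_mul_prod_filter_not _ (fun t : (ZMod p)ˣ => t ^ q = 1),
    Finset.prod_mul_distrib]
  congr 1
  · apply Finset.prod_congr _ (fun _ _ => rfl)
    ext t
    simp only [Finset.mem_filter, Finset.mem_univ, true_and]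
    constructor
    · exact fun h => h.2
    · intro h
      exact ⟨by rw [mul_comm, pow_mul, h, one_pow], h⟩
  · refine Finset.prod_bij' (fun t _ => t * (-1)) (fun t _ => t * (-1)) ?_ ?_ ?_ ?_ ?_
    · intro t ht
      simp only [Finset.mem_filter, Finset.mem_univ, true_and] at ht ⊢
      have h1 : (t ^ q) * (t ^ q) = 1 := by
        rw [← pow_add, ← two_mul]
        exact ht.1
      have h2 : t ^ q = 1 ∨ t ^ q = -1 := by
        have h3 : ((t ^ q : (ZMod p)ˣ) : ZMod p) * ((t ^ q : (ZMod p)ˣ) : ZMod p) = 1 := by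
          rw [← Units.val_mul, h1, Units.val_one]
        rcases mul_self_eq_one_iff.1 h3 with h4 | h4
        · left; exact Units.ext h4
        · right; exact Units.ext (by rw [h4]; simp)
      rcases h2 with h2 | h2
      · exact absurd h2 ht.2
      · rw [mul_pow, h2, hq.neg_one_pow]
        simp
    · intro t ht
      simp only [Finset.mem_filter, Finset.mem_univ, true_and] at ht ⊢
      refine ⟨?_, ?_⟩
      · rw [mul_comm 2 q, pow_mul, mul_pow, ht, hq.neg_one_pow]
        simp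
      · rw [mul_pow, ht, hq.neg_one_pow, one_mul]
        exact hne
    · intro t _
      simp
    · intro t _
      simp
    · intro t _
      simp

theorem p_mem {M : Type} [Field M] [NumberField M] (w : 𝓞 M) (hw : IsPrimitiveRoot w p)
    (P : Ideal (𝓞 M)) (h : 1 - w ∈ P) : ((p : ℕ) : 𝓞 M) ∈ P := by
  have hpp : p.Prime := Fact.out
  have h1 : ∑ i ∈ Finset.range p, w ^ i = 0 := hw.geom_sum_eq_zero hpp.one_lt
  have h2 : Ideal.Quotient.mk P w = 1 := by
    have := Ideal.Quotient.eq_zero_iff_mem.2 h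
    rw [map_sub, map_one, sub_eq_zero] at this
    exact this.symm
  rw [← Ideal.Quotient.eq_zero_iff_mem, map_natCast]
  have h3 := congrArg (Ideal.Quotient.mk P) h1
  rw [map_sum, map_zero] at h3
  simpa [h2] using h3

end

/-- products of congruent elements are congruent -/
theorem prod_cong {M ι : Type} [Field M] (w : Valuation M (WithZero (Multiplicative ℤ)))
    (s : Finset ι) (f g : ι → M) (c : WithZero (Multiplicative ℤ)) (hf : ∀ i ∈ s, w (f i) ≤ 1)
    (hg : ∀ i ∈ s, w (g i) ≤ 1) (h : ∀ i ∈ s, w (f i - g i) ≤ c) :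
    w (∏ i ∈ s, f i - ∏ i ∈ s, g i) ≤ c ∧ w (∏ i ∈ s, f i) ≤ 1 := by
  classical
  induction s using Finset.induction_on with
  | empty => simp
  | insert a s ha ih =>
    obtain ⟨h1, h2⟩ := ih (fun i hi => hf i (Finset.mem_insert_of_mem hi))
      (fun i hi => hg i (Finset.mem_insert_of_mem hi))
      (fun i hi => h i (Finset.mem_insert_of_mem hi))
    rw [Finset.prod_insert ha, Finset.prod_insert ha]
    have hfa := hf a (Finset.mem_insert_self a s)
    have hga := hg a (Finset.mem_insert_self a s)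
    have hha := h a (Finset.mem_insert_self a s)
    constructor
    · have h3 : f a * ∏ i ∈ s, f i - g a * ∏ i ∈ s, g i =
          (f a - g a) * ∏ i ∈ s, f i + g a * (∏ i ∈ s, f i - ∏ i ∈ s, g i) := by ring
      rw [h3]
      refine (w.map_add _ _).trans (max_le ?_ ?_)
      · rw [map_mul]
        exact (mul_le_mul' hha h2).trans (mul_one c).le
      · rw [map_mul]
        exact (mul_le_mul' hga h1).trans (one_mul c).le
    · rw [map_mul]
      exact (mul_le_mul' hfa h2).trans (mul_one _).le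

theorem pow_one' {x : WithZero (Multiplicative ℤ)} {n : ℕ} (hn : n ≠ 0) (h : x ^ n = 1) :
    x = 1 := by
  have h0 : x ≠ 0 := by
    rintro rfl
    rw [zero_pow hn] at h
    exact zero_ne_one h
  obtain ⟨k, rfl⟩ : ∃ k : ℤ, x = exp k := ⟨WithZero.log x, (WithZero.exp_log h0).symm⟩
  rw [← WithZero.exp_nsmul, ← WithZero.exp_zero] at h
  have h1 := WithZero.exp_injective h
  rw [nsmul_eq_mul] at h1
  have h2 : k = 0 := by
    rcases mul_eq_zero.1 h1 with h2 | h2
    · exact absurd (by exact_mod_cast h2) hn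
    · exact h2
  rw [h2, WithZero.exp_zero]

theorem mainKFIN : S_KFIN := by
  intro p _ hp2 s q hq hs K M _ _ _ _ _ c v e he h2e h2e' y z hy hyz β hβ
  have hpp : p.Prime := Fact.out
  have he1 : 1 ≤ e := he.pos
  have h2v : (2 : 𝓞 K) ∈ v.asIdeal := Ideal.pow_le_self (by omega) h2e
  have hpv : ((p : ℕ) : 𝓞 K) ∉ v.asIdeal := by
    intro h
    obtain ⟨k, hk⟩ := hpp.odd_of_ne_two hp2
    apply v.isPrime.ne_top ((Ideal.eq_top_iff_one _).2 ?_)
    have h1 : (1 : 𝓞 K) = ((p : ℕ) : 𝓞 K) - 2 * (k : 𝓞 K) := by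
      rw [hk]
      push_cast
      ring
    rw [h1]
    exact Ideal.sub_mem _ h (Ideal.mul_mem_right _ _ h2v)
  obtain ⟨P, hpP, hPv⟩ := c.dnq v hpv
  set w := P.valuation M with hw
  -- the valuation of two
  have hw2 : w (2 : M) = exp (-(e : ℤ)) := by
    have h20 : algebraMap (𝓞 K) K 2 = 2 := map_ofNat _ 2
    have h21 : algebraMap K M 2 = 2 := map_ofNat _ 2
    have h1 : w (2 : M) = v.intValuation (2 : 𝓞 K) := by
      rw [← h21, hPv, ← h20]
      exact v.valuation_of_algebraMap 2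
    have h2 := (v.intValuation_le_pow_iff_mem (2 : 𝓞 K) e).2 h2e
    have h3 := mt (v.intValuation_le_pow_iff_mem (2 : 𝓞 K) (e + 1)).1 h2e'
    have h0 : w (2 : M) ≠ 0 := (Valuation.ne_zero_iff _).2 two_ne_zero
    obtain ⟨k, hk⟩ : ∃ k : ℤ, w (2 : M) = exp k :=
      ⟨WithZero.log _, (WithZero.exp_log h0).symm⟩
    rw [← h1, hk, WithZero.exp_le_exp] at h2 h3
    rw [hk]
    push_cast at h3
    congr 1
    omega
  have hwY : w (algebraMap K M (y : K)) = 1 := by
    rw [hPv]
    rcases (v.valuation_le_one (K := K) y).lt_or_eq with h1 | h1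
    · exact absurd ((v.valuation_lt_one_iff_mem (K := K) y).1 h1) hy
    · exact h1
  have hwD : w (algebraMap K M (z : K) ^ 2 - algebraMap K M (y : K) ^ 2) ≤
      exp (-((2 * e : ℕ) : ℤ)) := by
    have h1 := (v.intValuation_le_pow_iff_mem (z ^ 2 - y ^ 2) (2 * e)).2 hyz
    rw [← HeightOneSpectrum.valuation_of_algebraMap (K := K), ← hPv] at h1
    simpa only [map_sub, map_pow] using h1
  set Y := algebraMap K M (y : K) with hY
  set D := algebraMap K M (z : K) ^ 2 - Y ^ 2 with hD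
  -- the root of unity
  have hzint : IsIntegral ℤ c.z :=
    ⟨Polynomial.X ^ p - 1, Polynomial.monic_X_pow_sub_C 1 hpp.ne_zero, by
      simp [c.prim.pow_eq_one]⟩
  obtain ⟨ω, hω, hωp⟩ : ∃ ω : 𝓞 M, (ω : M) = c.z ∧ IsPrimitiveRoot ω p := by
    refine ⟨⟨c.z, hzint⟩, rfl, ?_⟩
    apply IsPrimitiveRoot.of_map_of_injective (f := algebraMap (𝓞 M) M) _
      RingOfIntegers.coe_injective
    exact c.prim
  have hz0 : c.z ≠ 0 := c.prim.ne_zero hpp.ne_zero
  have hwz : w c.z = 1 := by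
    apply pow_one' hpp.ne_zero
    rw [← map_pow, c.prim.pow_eq_one, map_one]
  set u : (ZMod p)ˣ → M := fun t => c.z ^ (t : ZMod p).val with hu
  have hu0 : ∀ t, u t ≠ 0 := fun t => pow_ne_zero _ hz0
  have hwu : ∀ t, w (u t) = 1 := by
    intro t
    rw [hu, map_pow, hwz, one_pow]
  have hw1u : ∀ t, w (1 - u t) = 1 := by
    intro t
    have h1 : IsPrimitiveRoot (ω ^ (t : ZMod p).val) p :=
      hωp.pow_of_coprime _ (ZMod.val_coe_unit_coprime t)
    have h2 : 1 - ω ^ (t : ZMod p).val ∉ P.asIdeal := fun h => hpP (p_mem _ h1 _ h)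
    have h3 : (((1 - ω ^ (t : ZMod p).val : 𝓞 M)) : M) = 1 - u t := by
      have hω' : algebraMap (𝓞 M) M ω = c.z := hω
      show algebraMap (𝓞 M) M (1 - ω ^ (t : ZMod p).val) = 1 - u t
      rw [map_sub, map_one, map_pow, hω']
    rw [← h3]
    rcases (P.valuation_le_one (K := M) (1 - ω ^ (t : ZMod p).val)).lt_or_eq with h4 | h4
    · exact absurd ((P.valuation_lt_one_iff_mem (K := M) _).1 h4) h2
    · exact h4
  have hun : ∀ t : (ZMod p)ˣ, u (t * (-1)) = (u t)⁻¹ := by
    intro t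
    apply eq_inv_of_mul_eq_one_left
    show c.z ^ ((t * (-1) : (ZMod p)ˣ) : ZMod p).val * c.z ^ (t : ZMod p).val = 1
    rw [← pow_add, c.prim.pow_eq_one_iff_dvd, ← ZMod.natCast_eq_zero_iff]
    push_cast
    rw [ZMod.natCast_zmod_val, ZMod.natCast_zmod_val]
    simp
  -- the conjugates
  set a : (ZMod p)ˣ → M := fun t => c.σ t (algebraMap K M (z : K) ^ 2 - c.z * Y ^ 2) with ha
  have haD : ∀ t, a t = Y ^ 2 * (1 - u t) + D := by
    intro t
    have h1 : a t = algebraMap K M (z : K) ^ 2 - u t * Y ^ 2 := by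
      rw [ha]
      simp only [map_sub, map_mul, map_pow, hY, AlgEquiv.commutes, c.σ_z, hu]
    rw [h1, hD]
    ring
  have hD1 : exp (-((2 * e : ℕ) : ℤ)) < (1 : WithZero (Multiplicative ℤ)) := by
    rw [← WithZero.exp_zero, WithZero.exp_lt_exp]
    omega
  have hwa : ∀ t, w (a t) = 1 := by
    intro t
    rw [haD]
    have h1 : w (Y ^ 2 * (1 - u t)) = 1 := by
      rw [map_mul, map_pow, hwY, hw1u, one_pow, one_mul]
    rw [w.map_add_eq_of_lt_left, h1]
    rw [h1]
    exact hwD.trans_lt hD1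
  have hpair : ∀ t, w (a t * a (t * (-1)) - (-((u t)⁻¹ * a t ^ 2))) ≤
      exp (-((2 * e : ℕ) : ℤ)) := by
    intro t
    have h1 : a t * a (t * (-1)) - (-((u t)⁻¹ * a t ^ 2)) = a t * (D * (1 + (u t)⁻¹)) := by
      have h2 : a (t * (-1)) = -((u t)⁻¹ * a t) + D * (1 + (u t)⁻¹) := by
        rw [haD t, haD (t * (-1)), hun]
        have h3 := mul_inv_cancel₀ (hu0 t)
        linear_combination (-Y ^ 2) * h3
      rw [h2]
      ring
    rw [h1, map_mul, map_mul, hwa, one_mul]
    have h4 : w (1 + (u t)⁻¹) ≤ 1 := by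
      refine (w.map_add _ _).trans (max_le ?_ ?_)
      · rw [map_one]
      · rw [map_inv₀, hwu, inv_one]
    exact (mul_le_mul' hwD h4).trans (mul_one _).le
  set H := Finset.univ.filter (fun t : (ZMod p)ˣ => t ^ q = 1) with hH
  have hHodd : Odd H.card := odd_H q hq
  have hβ2 : β ^ 2 = ∏ t ∈ H, (a t * a (t * (-1))) := by
    rw [← prod_G hp2 q hq a, ← hβ]
  set γ0 : M := ∏ t ∈ H, a t with hγ0
  have hcong := (prod_cong w H (fun t => a t * a (t * (-1))) (fun t => -((u t)⁻¹ * a t ^ 2))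
    (exp (-((2 * e : ℕ) : ℤ))) (fun t _ => by rw [map_mul, hwa, hwa, one_mul])
    (fun t _ => by rw [Valuation.map_neg, map_mul, map_inv₀, hwu, map_pow, hwa, one_pow, inv_one,
      one_mul]) (fun t _ => hpair t)).1
  set J : ℕ := ∑ t ∈ H, (t : ZMod p).val with hJ
  have hprod : ∏ t ∈ H, (-((u t)⁻¹ * a t ^ 2)) = -((c.z⁻¹) ^ J * γ0 ^ 2) := by
    have h1 : ∀ t ∈ H, -((u t)⁻¹ * a t ^ 2) = (-1) * ((c.z⁻¹) ^ (t : ZMod p).val) * a t ^ 2 := by
      intro t _
      rw [hu]
      simp only [inv_pow]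
      ring
    rw [Finset.prod_congr rfl h1, Finset.prod_mul_distrib, Finset.prod_mul_distrib,
      Finset.prod_const, hHodd.neg_one_pow, Finset.prod_pow, Finset.prod_pow_eq_pow_sum, hJ, hγ0]
    ring
  obtain ⟨h, hh⟩ : ∃ h, p + 1 = 2 * h := by
    rcases hpp.odd_of_ne_two hp2 with ⟨u, hu⟩
    exact ⟨u + 1, by omega⟩
  set κ : M := (c.z⁻¹) ^ (h * J) with hκ
  have hκ2 : κ ^ 2 = (c.z⁻¹) ^ J := by
    rw [hκ, ← pow_mul]
    have h1 : h * J * 2 = p * J + J := by
      have h2 : h * J * 2 = (p + 1) * J := by rw [hh]; ring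
      rw [h2]; ring
    rw [h1, pow_add, pow_mul, inv_pow, c.prim.pow_eq_one, inv_one, one_pow, one_mul]
  have hwκ : w κ = 1 := by
    rw [hκ, map_pow, map_inv₀, hwz, inv_one, one_pow]
  set γ : M := κ * γ0 with hγ
  have hwγ : w γ = 1 := by
    rw [hγ, map_mul, hwκ, one_mul, hγ0, map_prod]
    exact Finset.prod_eq_one fun t _ => hwa t
  have hsum : w (β ^ 2 + γ ^ 2) ≤ exp (-((2 * e : ℕ) : ℤ)) := by
    have h1 : β ^ 2 + γ ^ 2 = ∏ t ∈ H, (a t * a (t * (-1))) - ∏ t ∈ H, (-((u t)⁻¹ * a t ^ 2)) := by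
      rw [hprod, hβ2, hγ, mul_pow, hκ2]
      ring
    rw [h1]
    exact hcong
  have hwβ : w β = 1 := by
    apply pow_one' two_ne_zero
    rw [← map_pow, hβ2, map_prod]
    refine Finset.prod_eq_one fun t _ => ?_
    rw [map_mul, hwa, hwa, one_mul]
  have h2βγ : w (2 * β * γ) = exp (-(e : ℤ)) := by
    rw [map_mul, map_mul, hw2, hwβ, hwγ, mul_one, mul_one]
  have hsq : w ((β + γ) ^ 2) = exp (-(e : ℤ)) := by
    have h1 : (β + γ) ^ 2 = (β ^ 2 + γ ^ 2) + 2 * β * γ := by ring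
    rw [h1, w.map_add_eq_of_lt_right, h2βγ]
    rw [h2βγ]
    refine hsum.trans_lt ?_
    rw [WithZero.exp_lt_exp]
    push_cast
    omega
  have hne : β + γ ≠ 0 := by
    intro h0
    rw [h0, zero_pow two_ne_zero, map_zero] at hsq
    exact WithZero.exp_ne_zero hsq.symm
  obtain ⟨k, hk⟩ : ∃ k : ℤ, w (β + γ) = exp k :=
    ⟨WithZero.log _, (WithZero.exp_log ((Valuation.ne_zero_iff _).2 hne)).symm⟩
  rw [map_pow, hk, ← WithZero.exp_nsmul] at hsq
  have h3 := WithZero.exp_injective hsq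
  rw [nsmul_eq_mul] at h3
  push_cast at h3
  obtain ⟨l, hl⟩ := he
  omega

end Pool.Agent.Y651.WQ
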